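import Mathlib
import Pool.Agent.H767R2.Charac
import Pool.Agent.H767R2.Exist3
import Pool.Agent.H767R2.Defs2

set_option autoImplicit false

/-!
# `d^W_min(𝒫) ≤ |𝒫| - 1` for every essentially distinct family of integer polynomials

For every essentially distinct family `𝒫` of at least two integer polynomials and every Weyl system, the
Host–Kra factor `𝒵_{|𝒫|-1}` exists and is characteristic for the polynomial averages of `𝒫`; moreover the
averages tend to `0` in `L²` as soon as `|||f_p|||_{|𝒫|} = 0` for one `p ∈ 𝒫`. Hence `d^W_min(𝒫) ≤ |𝒫| - 1`.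
-/

namespace Pool.Agent.Results.MP_467fc0_an.WeylDegreeBound

open Pool.Agent.H767R2 MeasureTheory Filter Topology Polynomial
open scoped ENNReal

/-- **`d^W_min(𝒫) ≤ |𝒫| - 1`** for every essentially distinct family `𝒫 ⊂ ℤ[t]` with `|𝒫| ≥ 2`; in detail, for
every Weyl system `W`:
* the Host–Kra factor `𝒵_{d,T}` exists for every `d`;
* `𝒵_{|𝒫|-1,T}` is characteristic for the averages `A_N` of the family `𝒫`;
* if `|||f_p|||_{|𝒫|} = 0` for some `p ∈ 𝒫` (all `f_q` bounded), then `A_N → 0` in `L²`. -/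
theorem result (P : Finset ℤ[X]) (hP : EssentiallyDistinct P) (h2 : 2 ≤ P.card) :
    dWMin P ≤ ((P.card - 1 : ℕ) : ℕ∞) ∧
    ∀ W : WeylSystem,
      (∀ d : ℕ, ∃ 𝒵 : MeasurableSpace (Fin W.D → UnitAddCircle), IsHKFactor 𝒵 (haarT W.D) W.T d) ∧
      (∀ 𝒵 : MeasurableSpace (Fin W.D → UnitAddCircle),
        IsHKFactor 𝒵 (haarT W.D) W.T (P.card - 1) → IsCharacteristic 𝒵 (haarT W.D) W.T P) ∧
      ∀ f : ℤ[X] → (Fin W.D → UnitAddCircle) → ℂ, (∀ p ∈ P, MemLp (f p) ∞ (haarT W.D)) →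
        (∃ p ∈ P, hk (haarT W.D) W.T (P.card - 1) (f p) = 0) →
        Tendsto (fun N : ℕ => eLpNorm (polyAvg W.T P f N) 2 (haarT W.D)) atTop (𝓝 0) := by
  classical
  refine ⟨iInf₂_le (P.card - 1) fun W => ?_, fun W => ⟨fun d => W.exists_hkFactor d, fun 𝒵 h𝒵 =>
    characteristic_card_sub_one P hP h2 W 𝒵 h𝒵, fun f hf ⟨p, hp, h0⟩ => ?_⟩⟩
  · obtain ⟨𝒵, h𝒵⟩ := W.exists_hkFactor (P.card - 1)
    exact ⟨𝒵, h𝒵, characteristic_card_sub_one P hP h2 W 𝒵 h𝒵⟩
  · exact seminorm_form W P (fun p => p) h2 (fun p hp => hP.1 p hp) (fun p hp q hq h => hP.2 p hp q hq h) f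
      (fun p => (eLpNorm (f p) ∞ (haarT W.D)).toReal) (fun p hp => bd_of_memLp_top (hf p hp)) p hp h0

end Pool.Agent.Results.MP_467fc0_an.WeylDegreeBound
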